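import Pool.Agent.Helper19.PM.Goals
import Pool.Agent.Helper29.BL.PS
import Pool.Agent.Helper35.SGC1.NFB

/-!
# Project P1M, goal CENU: the centre data of the moving product centre
-/

set_option autoImplicit false

open MvPolynomial

namespace Pool.Agent.Helper69.PM

open WeierstrassCurve Height
open Pool.Agent.Helper29.BL Pool.Agent.Helper92.Ru Pool.Agent.Helper42.SG
open Pool.Agent.Helper68.VN hiding xs Good nz
open Pool.Agent.Helper19.PM

noncomputable section

/-! ## places -/

section pl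

variable {K : Type} [Field K]

lemma v_nat (v : AbsoluteValue K ℝ) (t : ℕ) {c : ℝ} (hc : (t : ℝ) ≤ c) :
    v (t : K) ≤ cst v c := by
  by_cases hv : IsNonarchimedean v
  · rw [cst_of_nonarch hv]
    have : ∀ n : ℕ, v (n : K) ≤ 1 := by
      intro n
      induction n with
      | zero => simp
      | succ n ih =>
        have h := hv (n : K) 1
        rw [map_one] at h
        push_cast
        exact h.trans (max_le ih le_rfl)
    exact this t
  · rw [cst_of_not_nonarch hv]
    have : ∀ n : ℕ, v (n : K) ≤ n := by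
      intro n
      induction n with
      | zero => simp
      | succ n ih =>
        have h := v.add_le (n : K) 1
        rw [map_one] at h
        push_cast
        linarith
    exact (this t).trans hc

/-- `K` with the absolute value is a norm frame -/
lemma nfK (v : AbsoluteValue K ℝ) : NFr v (A := K) (fun f T => v f ≤ T) where
  const k := le_of_eq rfl
  mul f g S T hf hg := by
    rw [map_mul]
    exact mul_le_mul hf hg (v.nonneg g) ((v.nonneg f).trans hf)
  add f g S T hf hg := (v.add_le f g).trans (add_le_add hf hg)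
  max hv f g S T hf hg := (hv f g).trans (max_le_max hf hg)
  mono f S T hf h := hf.trans h
  nonneg f T hf := (v.nonneg f).trans hf

lemma single_le {ι : Type} [Fintype ι] [DecidableEq ι] (f : ι → ℝ) (h : ∀ i, 1 ≤ f i) (a : ι) :
    f a ≤ ∏ i, f i := by
  rw [← Finset.mul_prod_erase _ _ (Finset.mem_univ a)]
  exact le_mul_of_one_le_right (by linarith [h a]) (Finset.one_le_prod fun i _ => h i)

lemma v_eval (v : AbsoluteValue K ℝ) (D : ℕ) (g : Polynomial K) (t : ℕ) (hg : g.natDegree ≤ D)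
    (ht : t ≤ D) :
    Mv v (g.eval (t : K)) ≤ cst v (((D : ℝ) + 1) * ((D : ℝ) + 1) ^ D) *
      ∏ k : Fin (D + 1), Mv v (g.coeff k) := by
  set P := ∏ k : Fin (D + 1), Mv v (g.coeff k) with hP
  have hD1 : (1 : ℝ) ≤ (D : ℝ) + 1 := by
    have : (0 : ℝ) ≤ (D : ℝ) := Nat.cast_nonneg D
    linarith
  have hc1 : 1 ≤ cst v ((D : ℝ) + 1) := one_le_cst v hD1
  have hP1 : 1 ≤ P := Finset.one_le_prod fun k _ => one_le_Mv v _
  have hcp : 1 ≤ cst v (((D : ℝ) + 1) ^ D) := one_le_cst v (one_le_pow₀ hD1)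
  rw [cst_mul]
  refine max_le ?_ ?_
  · calc (1 : ℝ) = 1 * 1 * 1 := by ring
      _ ≤ cst v ((D : ℝ) + 1) * cst v (((D : ℝ) + 1) ^ D) * P := by gcongr
  · have hs := (Pool.Agent.Helper35.SGC1.nfb K v K _ (nfK v)).2.2.2.2 ℕ (Finset.range (D + 1))
      (fun k => g.coeff k * (t : K) ^ k) (P * cst v (((D : ℝ) + 1) ^ D)) (by positivity) (by
        intro k hk
        have hk' : k < D + 1 := Finset.mem_range.mp hk
        rw [map_mul, map_pow]
        refine mul_le_mul ?_ ?_ (pow_nonneg (v.nonneg _) _) (by positivity)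
        · have h1 : Mv v (g.coeff ((⟨k, hk'⟩ : Fin (D + 1)) : ℕ)) ≤ P :=
            single_le (fun k : Fin (D + 1) => Mv v (g.coeff k)) (fun k => one_le_Mv v _) _
          exact (le_max_right _ _).trans h1
        · have h2 : v (t : K) ≤ cst v ((D : ℝ) + 1) := v_nat v t (by
            have : (t : ℝ) ≤ D := by exact_mod_cast ht
            linarith)
          calc v (t : K) ^ k ≤ cst v ((D : ℝ) + 1) ^ k := by
                gcongr
            _ ≤ cst v ((D : ℝ) + 1) ^ D := pow_le_pow_right₀ hc1 (by omega)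
            _ = _ := (cst_pow v _ _).symm)
    rw [Polynomial.eval_eq_sum_range' (Nat.lt_succ_of_le hg)]
    refine hs.trans (le_of_eq ?_)
    rw [Finset.card_range]
    push_cast
    ring

lemma exists_t [CharZero K] (D : ℕ) (g : Polynomial K) (h0 : g ≠ 0) (hg : g.natDegree ≤ D) :
    ∃ t : ℕ, t ≤ D ∧ g.eval (t : K) ≠ 0 := by
  classical
  by_contra hc
  push Not at hc
  refine h0 (Polynomial.eq_zero_of_natDegree_lt_card_of_eval_eq_zero' g
    ((Finset.range (D + 1)).image (fun n : ℕ => (n : K))) ?_ ?_)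
  · intro i hi
    obtain ⟨n, hn, rfl⟩ := Finset.mem_image.mp hi
    exact hc n (Nat.lt_succ_iff.mp (Finset.mem_range.mp hn))
  · rw [Finset.card_image_of_injective _ Nat.cast_injective, Finset.card_range]
    omega

end pl

section ht

variable {K : Type} [Field K] [NumberField K]

lemma ht_eval (D : ℕ) (g : Polynomial K) (t : ℕ) (hg : g.natDegree ≤ D)
    (ht : t ≤ D) (A : ℝ) (hA : ∀ k, logHeight₁ (g.coeff k) ≤ A) :
    logHeight₁ (g.eval (t : K)) ≤
      totalWeight K * Real.log (((D : ℝ) + 1) * ((D : ℝ) + 1) ^ D) + ((D : ℝ) + 1) * A := by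
  have hD1 : (1 : ℝ) ≤ (D : ℝ) + 1 := by
    have : (0 : ℝ) ≤ (D : ℝ) := Nat.cast_nonneg D
    linarith
  have hc : (1 : ℝ) ≤ ((D : ℝ) + 1) * ((D : ℝ) + 1) ^ D := by
    have := one_le_pow₀ hD1 (n := D)
    nlinarith
  rw [← PS_log_Mv]
  have h1 : PS (fun v => Real.log (Mv v (g.eval (t : K)))) ≤
      PS (fun v => Real.log (cst v (((D : ℝ) + 1) * ((D : ℝ) + 1) ^ D)) +
        ∑ k : Fin (D + 1), Real.log (Mv v (g.coeff k))) := by
    refine PS_mono (FS_log_Mv _) ((FS_log_cst _).add (FS.sum _ fun k _ => FS_log_Mv _))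
      fun v => ?_
    rw [← Real.log_prod (fun k _ => (Mv_pos v _).ne'), ← Real.log_mul (cst_pos v hc).ne'
      (Finset.prod_pos fun k _ => Mv_pos v _).ne']
    exact Real.log_le_log (Mv_pos v _) (v_eval v D g t hg ht)
  rw [PS_add (FS_log_cst _) (FS.sum _ fun k _ => FS_log_Mv _),
    PS_sum _ (fun k _ => FS_log_Mv _)] at h1
  have h2 : ∑ k : Fin (D + 1), PS (fun v => Real.log (Mv v (g.coeff k))) ≤ ((D : ℝ) + 1) * A := by
    calc ∑ k : Fin (D + 1), PS (fun v => Real.log (Mv v (g.coeff k)))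
        ≤ ∑ k : Fin (D + 1), A := by
          refine Finset.sum_le_sum fun k _ => ?_
          rw [PS_log_Mv]
          exact hA k
      _ = ((D : ℝ) + 1) * A := by
          rw [Finset.sum_const, Finset.card_univ, Fintype.card_fin]
          simp
  have h3 := PS_log_cst (K := K) hc
  linarith

end ht

section cen

variable {K : Type} [Field K] {σ : Type}

/-- one factor of the functions `E t` -/
def Fc (D N : ℕ) (g : σ → Polynomial K) (tt : σ → ℕ) (i : σ) (p : Fin (N + 1) × Fin D) :
    MvPolynomial σ K :=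
  if p.1.val * D + p.2.val ≤ N then
    cenU g i ^ p.1.val * (X i - C (tt i : K)) ^ (N - (p.1.val * D + p.2.val))
  else 0

lemma exp_i (D N : ℕ) (g : σ → Polynomial K) (tt : σ → ℕ) (i : σ) (R : ℕ → ℕ → ℕ → K) (s : ℕ)
    (h : (Polynomial.X ^ s : Polynomial K) =
        ∑ a ∈ Finset.range (N + 1), ∑ b ∈ Finset.range D, if a * D + b ≤ N then
          Polynomial.C (R s a b) *
            (g i ^ a * (Polynomial.X - Polynomial.C (tt i : K)) ^ (N - (a * D + b)))
        else 0) :
    (X i ^ s : MvPolynomial σ K) = ∑ p : Fin (N + 1) × Fin D, C (R s p.1 p.2) * Fc D N g tt i p := by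
  have h' := congrArg (Polynomial.aeval (X i : MvPolynomial σ K)) h
  rw [map_pow, Polynomial.aeval_X] at h'
  rw [h', Fintype.sum_prod_type, map_sum, Finset.sum_range]
  refine Finset.sum_congr rfl fun a _ => ?_
  rw [map_sum, Finset.sum_range]
  refine Finset.sum_congr rfl fun b _ => ?_
  unfold Fc
  split_ifs with hc
  · rw [map_mul, map_mul, map_pow, map_pow, map_sub, Polynomial.aeval_X, Polynomial.aeval_C,
      Polynomial.aeval_C]
    rfl
  · simp

lemma wU_prod [Fintype σ] [DecidableEq σ] (D : ℕ) (i : σ) (a : σ → ℝ) :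
    ∏ h, a h ^ wU D i h = a i ^ D := by
  unfold wU
  rw [Finset.prod_eq_single i]
  · simp
  · intro b _ hb
    simp [hb]
  · intro h
    exact absurd (Finset.mem_univ i) h

lemma nm_i [Fintype σ] [DecidableEq σ] (D N : ℕ) (g : σ → Polynomial K) (tt : σ → ℕ)
    (ht : ∀ i, tt i ≤ D) (v : AbsoluteValue K ℝ)
    (A : Type) [CommRing A] [Algebra K A] (Nm : A → ℝ → Prop) (hN : NFr v Nm) (X' : σ → A)
    (a : σ → ℝ) (ρ : ℝ) (ha : ∀ i, 1 ≤ a i) (hρ : 0 < ρ)
    (hX : ∀ i, Nm (X' i) (a i))
    (hg : ∀ j, Nm (aeval X' (cenU g j)) (ρ * ∏ i, a i ^ wU D j i)) (i : σ)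
    (p : Fin (N + 1) × Fin D) :
    Nm (aeval X' (Fc D N g tt i p)) (cst v ((D : ℝ) + 1) ^ N * a i ^ N * ρ ^ p.1.val) := by
  obtain ⟨h0, -, hpow, -, -⟩ := Pool.Agent.Helper35.SGC1.nfb K v A Nm hN
  have hD1 : (1 : ℝ) ≤ (D : ℝ) + 1 := by
    have : (0 : ℝ) ≤ (D : ℝ) := Nat.cast_nonneg D
    linarith
  have hc1 : 1 ≤ cst v ((D : ℝ) + 1) := one_le_cst v hD1
  have hai := ha i
  unfold Fc
  split_ifs with hc
  · rw [map_mul, map_pow, map_pow, map_sub, aeval_X, aeval_C]
    have h1 := hpow _ _ (hg i) p.1.val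
    rw [wU_prod] at h1
    have h2 : Nm (X' i - algebraMap K A (tt i : K)) (cst v ((D : ℝ) + 1) * a i) := by
      have hk := hN.const (-(tt i : K))
      rw [map_neg, v.map_neg] at hk
      rw [sub_eq_add_neg]
      have hti : (tt i : ℝ) ≤ D := by exact_mod_cast ht i
      by_cases hv : IsNonarchimedean v
      · refine hN.mono _ _ _ (hN.max hv _ _ _ _ (hX i) hk) ?_
        rw [cst_of_nonarch hv, one_mul]
        have := v_nat v (tt i) (c := (D : ℝ)) hti
        rw [cst_of_nonarch hv] at this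
        exact max_le le_rfl (this.trans hai)
      · refine hN.mono _ _ _ (hN.add _ _ _ _ (hX i) hk) ?_
        have := v_nat v (tt i) (c := (D : ℝ)) hti
        rw [cst_of_not_nonarch hv] at this
        rw [cst_of_not_nonarch hv]
        have h0D : (0 : ℝ) ≤ D := Nat.cast_nonneg D
        nlinarith
    have h3 := hpow _ _ h2 (N - (p.1.val * D + p.2.val))
    refine hN.mono _ _ _ (hN.mul _ _ _ _ h1 h3) ?_
    rw [mul_pow, mul_pow, ← pow_mul]
    have h4 : cst v ((D : ℝ) + 1) ^ (N - (p.1.val * D + p.2.val)) ≤ cst v ((D : ℝ) + 1) ^ N :=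
      pow_le_pow_right₀ hc1 (by omega)
    have h5 : a i ^ (D * p.1.val) * a i ^ (N - (p.1.val * D + p.2.val)) ≤ a i ^ N := by
      rw [← pow_add]
      refine pow_le_pow_right₀ hai ?_
      rw [mul_comm D]
      omega
    calc ρ ^ p.1.val * a i ^ (D * p.1.val) *
          (cst v ((D : ℝ) + 1) ^ (N - (p.1.val * D + p.2.val)) *
            a i ^ (N - (p.1.val * D + p.2.val)))
        = cst v ((D : ℝ) + 1) ^ (N - (p.1.val * D + p.2.val)) *
          (a i ^ (D * p.1.val) * a i ^ (N - (p.1.val * D + p.2.val))) * ρ ^ p.1.val := by ring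
      _ ≤ cst v ((D : ℝ) + 1) ^ N * a i ^ N * ρ ^ p.1.val := by gcongr
  · rw [map_zero]
    refine hN.mono _ _ _ h0 ?_
    positivity

lemma isInt_prod {Y : Type} [Fintype Y] [DecidableEq Y] (dy : Y → ℕ) (y : Y → K)
    (h : ∀ a, IsIntegral ℤ ((dy a : K) * y a)) (a : Y) :
    IsIntegral ℤ (((∏ a, dy a : ℕ) : K) * y a) := by
  rw [← Finset.mul_prod_erase _ _ (Finset.mem_univ a), Nat.cast_mul, mul_comm ((dy a : ℕ) : K),
    mul_assoc]
  exact (isIntegral_natCast _).mul (h a)

end cen

theorem t_CENU (hD : DENW) (hV : DIVW) : CENU := by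
  intro K _ _ σ _ _ D hD1
  obtain ⟨c1, hc1, hV⟩ := hV D hD1
  obtain ⟨C0, hC0, hDn⟩ := hD K
  have hDr : (1 : ℝ) ≤ (D : ℝ) + 1 := by
    have : (0 : ℝ) ≤ (D : ℝ) := Nat.cast_nonneg D
    linarith
  have hc1r : (1 : ℝ) ≤ (c1 : ℝ) := by exact_mod_cast hc1
  set m := Fintype.card σ with hm
  set TW : ℝ := (totalWeight K : ℝ) with hTW
  have hTW0 : 0 ≤ TW := Nat.cast_nonneg _
  set c3 : ℝ := ((D : ℝ) + 1) * ((D : ℝ) + 1) ^ D with hc3
  have hc31 : 1 ≤ c3 := by
    have := one_le_pow₀ hDr (n := D)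
    rw [hc3]
    nlinarith
  set b0 : ℝ := ((c1 : ℝ) * ((D : ℝ) + 1)) ^ m with hb0
  have hb01 : 1 ≤ b0 := one_le_pow₀ (by nlinarith)
  have hlb0 : 0 ≤ Real.log b0 := Real.log_nonneg hb01
  have hlc3 : 0 ≤ Real.log c3 := Real.log_nonneg hc31
  set C2 : ℝ := TW * Real.log c3 + ((D : ℝ) + 1) with hC2
  have hC20 : 0 ≤ C2 := by positivity
  have hC21 : 1 ≤ C2 := by
    have : 0 ≤ TW * Real.log c3 := by positivity
    linarith
  set nY : ℝ := (Fintype.card ((σ × Fin (D + 1)) ⊕ σ) : ℝ) with hnY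
  have hnY0 : 0 ≤ nY := Nat.cast_nonneg _
  set L0 : ℝ := nY * C2 with hL0
  have hL00 : 0 ≤ L0 := by positivity
  set CC : ℝ := 2 * m * C0 * L0 + (2 * m + 1) * L0 + (2 * m + 1) * C0 * L0 +
    (TW + 1) * Real.log b0 with hCC
  have hCC0 : 0 ≤ CC := by positivity
  refine ⟨(2 * D) ^ m + D ^ m, CC, ?_, hCC0, fun g A hA hg hh => ?_⟩
  · have : 1 ≤ D ^ m := Nat.one_le_pow _ _ hD1
    omega
  choose tt htt htt0 using fun i => exists_t D (g i) (hg i).1 (hg i).2
  set y : (σ × Fin (D + 1)) ⊕ σ → K :=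
    Sum.elim (fun p => (g p.1).coeff p.2) (fun i => ((g i).eval (tt i : K))⁻¹) with hy
  have hyh : ∀ a, logHeight₁ (y a) ≤ C2 * (1 + A) := by
    intro a
    have hA1 : 0 ≤ TW * Real.log c3 := by positivity
    rcases a with ⟨i, k⟩ | i
    · simp only [hy, Sum.elim_inl]
      refine (hh i _).trans ?_
      nlinarith
    · simp only [hy, Sum.elim_inr]
      rw [logHeight₁_inv]
      refine (ht_eval D (g i) (tt i) (hg i).2 (htt i) A (hh i)).trans ?_
      rw [← hTW, ← hc3, hC2]
      nlinarith [mul_nonneg hA1 hA]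
  have hsum : ∑ a, logHeight₁ (y a) ≤ L0 * (1 + A) := by
    calc ∑ a, logHeight₁ (y a) ≤ ∑ a : (σ × Fin (D + 1)) ⊕ σ, C2 * (1 + A) :=
          Finset.sum_le_sum fun a _ => hyh a
      _ = L0 * (1 + A) := by
          rw [Finset.sum_const, Finset.card_univ, nsmul_eq_mul, hL0, hnY]
          ring
  choose dy hdy0 hdyle hdyint using fun a => (hDn (y a)).1
  have hpl := fun a => (hDn (y a)).2
  set Pd : ℕ := ∏ a, dy a with hPd
  have hPd0 : 0 < Pd := Finset.prod_pos fun a _ => hdy0 a
  have hPdle : (Pd : ℝ) ≤ Real.exp (C0 * (L0 * (1 + A))) := by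
    rw [hPd]
    push_cast
    calc ∏ a, (dy a : ℝ) ≤ ∏ a, Real.exp (C0 * logHeight₁ (y a)) :=
          Finset.prod_le_prod (fun a _ => Nat.cast_nonneg _) fun a _ => hdyle a
      _ = Real.exp (C0 * ∑ a, logHeight₁ (y a)) := by
          rw [← Real.exp_sum, Finset.mul_sum]
      _ ≤ _ := Real.exp_le_exp.mpr (mul_le_mul_of_nonneg_left hsum hC0)
  have hPdint : ∀ a, IsIntegral ℤ ((Pd : K) * y a) := fun a => isInt_prod dy y hdyint a
  set P : AbsoluteValue K ℝ → ℝ := fun v => ∏ a, Mv v (y a) with hP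
  have hP1 : ∀ v, 1 ≤ P v := fun v => Finset.one_le_prod fun a _ => one_le_Mv v _
  have hlP : ∀ v, Real.log (P v) = ∑ a, Real.log (Mv v (y a)) := fun v =>
    Real.log_prod fun a _ => (Mv_pos v _).ne'
  have hFP : FS (fun v => Real.log (P v)) := by
    simp only [hlP]
    exact FS.sum _ fun a _ => FS_log_Mv _
  have hPSP : PS (fun v => Real.log (P v)) ≤ L0 * (1 + A) := by
    simp only [hlP]
    rw [PS_sum _ fun a _ => FS_log_Mv _]
    simpa only [PS_log_Mv] using hsum
  have hPpl : ∀ φ : K →+* ℂ, P (NumberField.place φ) ≤ Real.exp (C0 * (L0 * (1 + A))) := by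
    intro φ
    calc P (NumberField.place φ) ≤ ∏ a, Real.exp (C0 * logHeight₁ (y a)) :=
          Finset.prod_le_prod (fun a _ => (Mv_pos _ _).le) fun a _ => hpl a φ
      _ = Real.exp (C0 * ∑ a, logHeight₁ (y a)) := by
          rw [← Real.exp_sum, Finset.mul_sum]
      _ ≤ _ := Real.exp_le_exp.mpr (mul_le_mul_of_nonneg_left hsum hC0)
  set G : AbsoluteValue K ℝ → ℝ := fun v => cst v b0 * P v ^ (2 * m + 1) with hG
  have hcb1 : ∀ v : AbsoluteValue K ℝ, 1 ≤ cst v b0 := fun v => one_le_cst v hb01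
  have hlG : ∀ v, Real.log (G v) = Real.log (cst v b0) + (2 * m + 1) * Real.log (P v) := by
    intro v
    have h1 : cst v b0 ≠ 0 := by linarith [hcb1 v]
    have h2 : P v ^ (2 * m + 1) ≠ 0 := pow_ne_zero _ (by linarith [hP1 v])
    rw [hG]
    simp only
    rw [Real.log_mul h1 h2, Real.log_pow]
    push_cast
    ring
  have hG1 : ∀ v, 1 ≤ G v := fun v => by
    have h1 := hcb1 v
    have h2 := one_le_pow₀ (hP1 v) (n := 2 * m + 1)
    have : 1 * 1 ≤ cst v b0 * P v ^ (2 * m + 1) := by gcongr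
    simpa using this
  have hFG : FS (fun v => Real.log (G v)) := by
    simp only [hlG]
    exact (FS_log_cst _).add (hFP.const_mul _)
  have hPG : ∀ v, P v ≤ G v := fun v => by
    have h1 := hcb1 v
    have h2 : P v ≤ P v ^ (2 * m + 1) := le_self_pow₀ (hP1 v) (by omega)
    calc P v = 1 * P v := by ring
      _ ≤ cst v b0 * P v ^ (2 * m + 1) := by
        have := hP1 v
        gcongr
  have hyP : ∀ v a, v (y a) ≤ P v := fun v a =>
    (le_max_right _ _).trans (single_le (fun a => Mv v (y a)) (fun a => one_le_Mv v _) a)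
  have hcoeffP : ∀ i k v, v ((g i).coeff k) ≤ P v := by
    intro i k v
    by_cases hk : k < D + 1
    · exact hyP v (Sum.inl (i, ⟨k, hk⟩))
    · rw [Polynomial.coeff_eq_zero_of_natDegree_lt (by have := (hg i).2; omega), map_zero]
      linarith [hP1 v]
  have h1A : (0 : ℝ) ≤ 1 + A := by linarith
  have hm0 : (0 : ℝ) ≤ (m : ℝ) := Nat.cast_nonneg m
  refine ⟨Pd ^ (2 * m), G, pow_pos hPd0 _, ?_, ⟨hG1, hFG⟩, ?_, ?_, ?_, fun N => ?_⟩
  · push_cast
    calc (Pd : ℝ) ^ (2 * m) ≤ Real.exp (C0 * (L0 * (1 + A))) ^ (2 * m) := by gcongr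
      _ = Real.exp ((2 * m * C0 * L0) * (1 + A)) := by
          rw [← Real.exp_nat_mul]
          push_cast
          ring_nf
      _ ≤ _ := by
          refine Real.exp_le_exp.mpr (mul_le_mul_of_nonneg_right ?_ h1A)
          rw [hCC]
          have e1 : 0 ≤ (2 * (m : ℝ) + 1) * L0 := by positivity
          have e2 : 0 ≤ (2 * (m : ℝ) + 1) * C0 * L0 := by positivity
          have e3 : 0 ≤ (TW + 1) * Real.log b0 := by positivity
          linarith
  · simp only [hlG]
    rw [PS_add (FS_log_cst _) (hFP.const_mul _), PS_const_mul]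
    have e0 := PS_log_cst (K := K) hb01
    rw [← hTW] at e0
    have e1 : (2 * (m : ℝ) + 1) * PS (fun v => Real.log (P v)) ≤
        (2 * (m : ℝ) + 1) * (L0 * (1 + A)) := mul_le_mul_of_nonneg_left hPSP (by positivity)
    have e2 : 0 ≤ 2 * (m : ℝ) * C0 * L0 * (1 + A) := by positivity
    have e3 : 0 ≤ (2 * (m : ℝ) + 1) * C0 * L0 * (1 + A) := by positivity
    have e4 : 0 ≤ Real.log b0 * (1 + A) := by positivity
    have e5 : 0 ≤ TW * Real.log b0 * A := by positivity
    rw [hCC]
    nlinarith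
  · intro φ
    have e1 : cst (NumberField.place φ) b0 ≤ b0 := by
      unfold cst
      split_ifs
      · exact hb01
      · exact le_rfl
    calc G (NumberField.place φ)
        ≤ b0 * Real.exp (C0 * (L0 * (1 + A))) ^ (2 * m + 1) := by
          have e2 := hPpl φ
          have e3 := hP1 (NumberField.place φ)
          rw [hG]
          simp only
          gcongr
      _ = Real.exp (Real.log b0 + (2 * m + 1) * (C0 * (L0 * (1 + A)))) := by
          rw [Real.exp_add, Real.exp_log (by linarith), ← Real.exp_nat_mul]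
          push_cast
          ring_nf
      _ ≤ _ := by
          refine Real.exp_le_exp.mpr ?_
          rw [hCC]
          have e2 : 0 ≤ 2 * (m : ℝ) * C0 * L0 * (1 + A) := by positivity
          have e3 : 0 ≤ (2 * (m : ℝ) + 1) * L0 * (1 + A) := by positivity
          have e4 : 0 ≤ Real.log b0 * A := by positivity
          have e5 : 0 ≤ TW * Real.log b0 * (1 + A) := by positivity
          nlinarith
  · intro i k v
    exact (hcoeffP i k v).trans (hPG v)
  choose R hR1 hR2 hR3 using fun i => hV K (g i) (tt i) N (hg i).2 (htt i) (htt0 i)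
  refine ⟨σ → Fin (N + 1) × Fin D, inferInstance, fun t => ∑ i, (t i).1.val,
    fun t => ∏ i, Fc D N g tt i (t i), fun t s => ∏ i, R i (s i) (t i).1 (t i).2, ?_, ?_⟩
  · refine ⟨?_, ?_, ?_, ?_, ?_⟩
    · rw [Fintype.card_pi]
      simp only [Fintype.card_prod, Fintype.card_fin, Finset.prod_const, Finset.card_univ]
      rw [← hm]
      have e1 : (N + 1) * D ≤ (2 * D) ^ (N + 1) := by
        rw [mul_pow]
        exact Nat.mul_le_mul (Nat.lt_two_pow_self).le (Nat.le_self_pow (by omega) D)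
      calc ((N + 1) * D) ^ m ≤ ((2 * D) ^ (N + 1)) ^ m := Nat.pow_le_pow_left e1 m
        _ = ((2 * D) ^ m) ^ (N + 1) := by rw [← pow_mul, ← pow_mul, mul_comm (N + 1) m]
        _ ≤ _ := Nat.pow_le_pow_left (by omega) _
    · intro k
      rw [← hm, Nat.sub_self, pow_zero, mul_one]
      have e1 : ∀ t : {t : σ → Fin (N + 1) × Fin D // ∑ i, (t i).1.val < k}, ∀ i,
          (t.1 i).1.val < k := fun t i =>
        lt_of_le_of_lt (Finset.single_le_sum (f := fun i => (t.1 i).1.val)
          (fun j _ => Nat.zero_le _) (Finset.mem_univ i)) t.2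
      have e2 : Nat.card {t : σ → Fin (N + 1) × Fin D // ∑ i, (t i).1.val < k} ≤
          Nat.card (σ → Fin k × Fin D) := by
        refine Nat.card_le_card_of_injective
          (fun t i => (⟨(t.1 i).1.val, e1 t i⟩, (t.1 i).2)) ?_
        intro t t' htt'
        refine Subtype.ext (funext fun i => ?_)
        have h := congrFun htt' i
        simp only [Prod.mk.injEq, Fin.mk.injEq] at h
        exact Prod.ext (Fin.ext h.1) h.2
      refine e2.trans ?_
      rw [Nat.card_eq_fintype_card, Fintype.card_pi]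
      simp only [Fintype.card_prod, Fintype.card_fin, Finset.prod_const, Finset.card_univ]
      rw [← hm, mul_pow, mul_comm]
      exact Nat.mul_le_mul_right _ (by omega)
    · intro v t s
      rw [map_prod]
      have hc : 1 ≤ cst v (c1 : ℝ) := one_le_cst v hc1r
      calc ∏ i, v (R i (s i) (t i).1 (t i).2) ≤ ∏ _i : σ, (cst v c1 * P v ^ 2) ^ (N + 1) :=
            Finset.prod_le_prod (fun i _ => v.nonneg _) fun i _ =>
              hR2 i v (P v) _ _ _ (hP1 v) (fun k => hcoeffP i k v) (hyP v (Sum.inr i))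
        _ = (cst v c1 ^ m * P v ^ (2 * m)) ^ (N + 1) := by
            rw [Finset.prod_const, Finset.card_univ, ← hm]
            ring
        _ ≤ G v ^ (N + 1) := by
            have h1 : cst v (c1 : ℝ) ^ m ≤ cst v b0 := by
              rw [← cst_pow]
              refine cst_mono v ?_
              rw [hb0]
              gcongr
              nlinarith
            have h2 : P v ^ (2 * m) ≤ P v ^ (2 * m + 1) := pow_le_pow_right₀ (hP1 v) (by omega)
            have h3 := hP1 v
            have h4 : 0 ≤ cst v b0 := by linarith [hcb1 v]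
            rw [hG]
            simp only
            gcongr
    · intro t s
      have h1 : ((Pd ^ (2 * m) : ℕ) : K) ^ (N + 1) * ∏ i, R i (s i) (t i).1 (t i).2 =
          ∏ i, ((Pd : K) ^ (2 * (N + 1)) * R i (s i) (t i).1 (t i).2) := by
        rw [Finset.prod_mul_distrib, Finset.prod_const, Finset.card_univ, ← hm]
        push_cast
        ring
      rw [h1]
      refine IsIntegral.prod _ fun i _ => hR3 i Pd _ _ _ ?_ (hPdint (Sum.inr i))
      intro k
      by_cases hk : k < D + 1
      · exact hPdint (Sum.inl (i, ⟨k, hk⟩))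
      · rw [Polynomial.coeff_eq_zero_of_natDegree_lt (by have := (hg i).2; omega), mul_zero]
        exact isIntegral_zero
    · intro s hs
      calc (∏ i, X i ^ s i : MvPolynomial σ K)
          = ∏ i, ∑ p : Fin (N + 1) × Fin D, C (R i (s i) p.1 p.2) * Fc D N g tt i p :=
            Finset.prod_congr rfl fun i _ => exp_i D N g tt i (R i) (s i) (hR1 i (s i) (hs i))
        _ = ∑ t : σ → Fin (N + 1) × Fin D,
            ∏ i, (C (R i (s i) (t i).1 (t i).2) * Fc D N g tt i (t i)) := by
            rw [Finset.prod_univ_sum, Fintype.piFinset_univ]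
        _ = _ := by
            refine Finset.sum_congr rfl fun t _ => ?_
            rw [Finset.prod_mul_distrib, map_prod]
  · intro v A' _ _ Nm hN X' a ρ ha hρ hρ1 hX hgN t
    obtain ⟨-, -, -, hprod, -⟩ := Pool.Agent.Helper35.SGC1.nfb K v A' Nm hN
    rw [map_prod]
    have h1 := hprod σ Finset.univ (fun i => aeval X' (Fc D N g tt i (t i)))
      (fun i => cst v ((D : ℝ) + 1) ^ N * a i ^ N * ρ ^ (t i).1.val)
      (fun i _ => nm_i D N g tt htt v A' Nm hN X' a ρ ha hρ hX hgN i (t i))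
    refine hN.mono _ _ _ h1 ?_
    rw [Finset.prod_mul_distrib, Finset.prod_mul_distrib, Finset.prod_const, Finset.card_univ,
      ← hm, Finset.prod_pow_eq_pow_sum]
    have hc : 1 ≤ cst v ((D : ℝ) + 1) := one_le_cst v hDr
    have h2 : (cst v ((D : ℝ) + 1) ^ N) ^ m ≤ G v ^ (N + 1) := by
      calc (cst v ((D : ℝ) + 1) ^ N) ^ m = (cst v ((D : ℝ) + 1) ^ m) ^ N := by
            rw [← pow_mul, ← pow_mul, mul_comm N m]
        _ ≤ (cst v ((D : ℝ) + 1) ^ m) ^ (N + 1) :=
            pow_le_pow_right₀ (one_le_pow₀ hc) (by omega)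
        _ ≤ G v ^ (N + 1) := by
            have h1 : cst v ((D : ℝ) + 1) ^ m ≤ cst v b0 := by
              rw [← cst_pow]
              refine cst_mono v ?_
              rw [hb0]
              gcongr
              nlinarith
            have h2 : 1 ≤ P v ^ (2 * m + 1) := one_le_pow₀ (hP1 v)
            have h3 : cst v ((D : ℝ) + 1) ^ m ≤ G v := by
              calc cst v ((D : ℝ) + 1) ^ m ≤ cst v b0 * 1 := by rw [mul_one]; exact h1
                _ ≤ cst v b0 * P v ^ (2 * m + 1) := by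
                  have := hcb1 v
                  gcongr
            gcongr
    have h3 : 0 ≤ ∏ i, a i ^ N := Finset.prod_nonneg fun i _ => by
      have := ha i
      positivity
    gcongr

end

end Pool.Agent.Helper69.PM
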