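import Pool.Agent.Helper19.PM.GoalsS
import Pool.Agent.Helper92.PN.CenMain
import Pool.Agent.Helper15.PM.DENW
import Pool.Agent.Helper29.BL.PS

/-!
# Project P1S, goal CENV: the centre data with slow constants
-/

set_option autoImplicit false

open MvPolynomial

namespace Pool.Agent.Helper69.PM

open WeierstrassCurve Height
open Pool.Agent.Helper29.BL Pool.Agent.Helper92.Ru Pool.Agent.Helper42.SG
open Pool.Agent.Helper92.PN Pool.Agent.Helper65.SG Pool.Agent.Helper62.SGB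
open Pool.Agent.Helper68.VN hiding xs Good nz
open Pool.Agent.Helper19.PM

noncomputable section

/-! ## slow constants -/

section slow

variable {K : Type} [Field K]

lemma single_le' {ι : Type} [Fintype ι] [DecidableEq ι] (f : ι → ℝ) (h : ∀ i, 1 ≤ f i) (a : ι) :
    f a ≤ ∏ i, f i := by
  rw [← Finset.mul_prod_erase _ _ (Finset.mem_univ a)]
  exact le_mul_of_one_le_right (by linarith [h a]) (Finset.one_le_prod fun i _ => h i)

variable [NumberField K]

lemma slow_G {Z : Type} [Fintype Z] (z : Z → K) (A : ℝ) (hz : ∀ a, logHeight₁ (z a) ≤ A)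
    (b0 : ℝ) (hb : 1 ≤ b0) :
    PlC (fun v => cst v b0 * ∏ a, Mv v (z a)) ∧
    PS (fun v => Real.log (cst v b0 * ∏ a, Mv v (z a))) ≤
      totalWeight K * Real.log b0 + Fintype.card Z * A ∧
    ∀ φ : K →+* ℂ, cst (NumberField.place φ) b0 * ∏ a, Mv (NumberField.place φ) (z a) ≤
      Real.exp (Real.log b0 + Fintype.card Z * A) := by
  have hP1 : ∀ v : AbsoluteValue K ℝ, 1 ≤ ∏ a, Mv v (z a) := fun v =>
    Finset.one_le_prod fun a _ => one_le_Mv v _
  have hc1 : ∀ v : AbsoluteValue K ℝ, 1 ≤ cst v b0 := fun v => one_le_cst v hb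
  have hl : ∀ v : AbsoluteValue K ℝ, Real.log (cst v b0 * ∏ a, Mv v (z a)) =
      Real.log (cst v b0) + ∑ a, Real.log (Mv v (z a)) := by
    intro v
    rw [Real.log_mul (by linarith [hc1 v]) (by linarith [hP1 v]),
      Real.log_prod fun a _ => (Mv_pos v _).ne']
  have hF : FS (fun v : AbsoluteValue K ℝ => ∑ a, Real.log (Mv v (z a))) :=
    FS.sum _ fun a _ => FS_log_Mv _
  have hs : ∑ a, logHeight₁ (z a) ≤ Fintype.card Z * A := by
    calc ∑ a, logHeight₁ (z a) ≤ ∑ _a : Z, A := Finset.sum_le_sum fun a _ => hz a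
      _ = _ := by rw [Finset.sum_const, Finset.card_univ, nsmul_eq_mul]
  refine ⟨⟨fun v => ?_, ?_⟩, ?_, fun φ => ?_⟩
  · have h1 := hc1 v
    have h2 := hP1 v
    have : 1 * 1 ≤ cst v b0 * ∏ a, Mv v (z a) := by gcongr
    simpa using this
  · simp only [hl]
    exact (FS_log_cst _).add hF
  · simp only [hl]
    rw [PS_add (FS_log_cst _) hF, PS_sum _ fun a _ => FS_log_Mv _]
    simp only [PS_log_Mv]
    exact add_le_add (PS_log_cst hb) hs
  · have e1 : cst (NumberField.place φ) b0 ≤ b0 := by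
      unfold cst
      split_ifs
      · exact hb
      · exact le_rfl
    obtain ⟨C, hC, hD⟩ := Pool.Agent.Helper15.PM.t_DENW K
    have e2 : ∏ a, Mv (NumberField.place φ) (z a) ≤ Real.exp (Fintype.card Z * A) := by
      calc ∏ a, Mv (NumberField.place φ) (z a) ≤ ∏ a, Real.exp (logHeight₁ (z a)) := by
            refine Finset.prod_le_prod (fun a _ => (Mv_pos _ _).le) fun a _ => ?_
            have h1 : (1 : ℝ) ≤ mulHeight₁ (z a) := one_le_mulHeight₁ _
            rw [logHeight₁_eq_log_mulHeight₁, Real.exp_log (lt_of_lt_of_le one_pos h1)]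
            have h3 : ‖φ (z a)‖ ≤ NumberField.house (z a) :=
              norm_le_pi_norm (fun ψ : K →+* ℂ => ψ (z a)) φ
            exact max_le h1 (h3.trans (Pool.Agent.Helper86.SGC.house_le_mulHeight₁ _))
        _ = Real.exp (∑ a, logHeight₁ (z a)) := by rw [Real.exp_sum]
        _ ≤ _ := Real.exp_le_exp.mpr hs
    rw [Real.exp_add, Real.exp_log (by linarith)]
    have e3 := hP1 (NumberField.place φ)
    gcongr

lemma slow_d {Z : Type} [Fintype Z] (z : Z → K) (A : ℝ) (hz : ∀ a, logHeight₁ (z a) ≤ A) :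
    ∃ d : ℕ, 0 < d ∧ (d : ℝ) ≤ Real.exp (Fintype.card Z * A) ∧
      ∀ a, IsIntegral ℤ ((d : K) * z a) := by
  classical
  choose dy hdy0 hdyle hdyint using fun a => NumberField.exists_nat_le_mulHeight₁ (z a)
  refine ⟨∏ a, dy a, Finset.prod_pos fun a _ => Nat.pos_of_ne_zero (hdy0 a), ?_, fun a => ?_⟩
  · push_cast
    calc ∏ a, (dy a : ℝ) ≤ ∏ a, Real.exp (logHeight₁ (z a)) := by
          refine Finset.prod_le_prod (fun a _ => Nat.cast_nonneg _) fun a _ => ?_
          have h1 : (1 : ℝ) ≤ mulHeight₁ (z a) := one_le_mulHeight₁ _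
          rw [logHeight₁_eq_log_mulHeight₁, Real.exp_log (lt_of_lt_of_le one_pos h1)]
          exact hdyle a
      _ = Real.exp (∑ a, logHeight₁ (z a)) := by rw [Real.exp_sum]
      _ ≤ _ := by
          refine Real.exp_le_exp.mpr ?_
          calc ∑ a, logHeight₁ (z a) ≤ ∑ _a : Z, A := Finset.sum_le_sum fun a _ => hz a
            _ = _ := by rw [Finset.sum_const, Finset.card_univ, nsmul_eq_mul]
  · rw [← Finset.mul_prod_erase _ _ (Finset.mem_univ a), Nat.cast_mul, mul_comm ((dy a : ℕ) : K),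
      mul_assoc]
    exact (isIntegral_natCast _).mul (hdyint a)

end slow

/-! ## coefficients in a box -/

section box

variable {K σ : Type} [Field K] [Fintype σ]

lemma coeff_cases (p : MvPolynomial σ K) (D : ℕ) (hp : ∀ i, degreeOf i p ≤ D) (m : σ →₀ ℕ) :
    coeff m p = 0 ∨ ∃ b : σ → Fin (D + 1), toF b = m := by
  by_cases hm : m ∈ p.support
  · refine Or.inr ⟨fun i => ⟨m i, Nat.lt_succ_of_le (deg_supp hp hm i)⟩, ?_⟩
    ext i
    rfl
  · exact Or.inl (notMem_support_iff.1 hm)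

open Classical in
lemma wc_le_box (v : AbsoluteValue K ℝ) (p : MvPolynomial σ K) (D : ℕ)
    (hp : ∀ i, degreeOf i p ≤ D) :
    wc v p.support (fun m => coeff m p) ≤ cst v (((D : ℝ) + 1) ^ Fintype.card σ + 1) *
      ∏ b : σ → Fin (D + 1), Mv v (coeff (toF b) p) := by
  have hsub : p.support ⊆ Finset.univ.image (toF : (σ → Fin (D + 1)) → σ →₀ ℕ) := by
    intro m hm
    rcases coeff_cases p D hp m with h | ⟨b, hb⟩
    · exact absurd h (mem_support_iff.1 hm)
    · exact Finset.mem_image.2 ⟨b, Finset.mem_univ _, hb⟩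
  have hcard : (p.support.card : ℝ) ≤ ((D : ℝ) + 1) ^ Fintype.card σ := by
    have h1 := Finset.card_le_card hsub
    have h2 := h1.trans Finset.card_image_le
    rw [Finset.card_univ, Fintype.card_pi] at h2
    simp only [Fintype.card_fin, Finset.prod_const, Finset.card_univ] at h2
    exact_mod_cast h2
  have hprod : ∏ m ∈ p.support, Mv v (coeff m p) =
      ∏ b : σ → Fin (D + 1), Mv v (coeff (toF b) p) := by
    rw [Finset.prod_subset hsub, Finset.prod_image fun b _ c _ h => toF_injective D h]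
    intro m _ hm
    rw [notMem_support_iff.1 hm]
    simp [Mv]
  unfold wc
  rw [hprod]
  have h3 : 1 ≤ ∏ b : σ → Fin (D + 1), Mv v (coeff (toF b) p) :=
    Finset.one_le_prod fun b _ => one_le_Mv v _
  have h4 : cst v ((p.support.card : ℝ) + 1) ≤ cst v (((D : ℝ) + 1) ^ Fintype.card σ + 1) :=
    cst_mono v (by linarith)
  gcongr

open Classical in
lemma BH_le {G : Type} [Fintype G] (v : AbsoluteValue K ℝ)
    (H : (σ → Bool) → G → MvPolynomial σ K) (k : ℕ) (hH : ∀ a l i, degreeOf i (H a l) ≤ k) :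
    BH v H ≤ cst v ((((k : ℝ) + 1) ^ Fintype.card σ + 1) ^ Fintype.card ((σ → Bool) × G)) *
      ∏ x : ((σ → Bool) × G) × (σ → Fin (k + 1)), Mv v (coeff (toF x.2) (H x.1.1 x.1.2)) := by
  unfold BH
  calc ∏ q : (σ → Bool) × G, wc v (H q.1 q.2).support (fun m => coeff m (H q.1 q.2))
      ≤ ∏ q : (σ → Bool) × G, (cst v (((k : ℝ) + 1) ^ Fintype.card σ + 1) *
        ∏ b : σ → Fin (k + 1), Mv v (coeff (toF b) (H q.1 q.2))) :=
        Finset.prod_le_prod (fun q _ => zero_le_one.trans (one_le_wc v _ _)) fun q _ =>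
          wc_le_box v _ k (hH _ _)
    _ = _ := by
        rw [Finset.prod_mul_distrib, Finset.prod_const, Finset.card_univ, cst_pow]
        congr 1
        exact (Fintype.prod_prod_type (f := fun x : ((σ → Bool) × G) × (σ → Fin (k + 1)) =>
          Mv v (coeff (toF x.2) (H x.1.1 x.1.2)))).symm

open Classical in
lemma BU_le {J : Type} [Fintype J] {p q : ℕ} (v : AbsoluteValue K ℝ) (c : Fin p → J → K)
    (y : Fin q → MvPolynomial σ K) (D : ℕ) (hy : ∀ l i, degreeOf i (y l) ≤ D) :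
    BU v c y ≤ (cst v (((Fintype.card J : ℝ) + 1) ^ p) * ∏ x : Fin p × J, Mv v (c x.1 x.2)) *
      (cst v ((((D : ℝ) + 1) ^ Fintype.card σ + 1) ^ q) *
        ∏ x : Fin q × (σ → Fin (D + 1)), Mv v (coeff (toF x.2) (y x.1))) := by
  unfold BU
  have h1 : ∏ l, wc v Finset.univ (c l) =
      cst v (((Fintype.card J : ℝ) + 1) ^ p) * ∏ x : Fin p × J, Mv v (c x.1 x.2) := by
    unfold wc
    rw [Finset.prod_mul_distrib, Finset.prod_const, Finset.card_univ, Finset.card_univ,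
      Fintype.card_fin, cst_pow, Fintype.prod_prod_type]
  have h2 : ∏ l, wc v (y l).support (fun m => coeff m (y l)) ≤
      cst v ((((D : ℝ) + 1) ^ Fintype.card σ + 1) ^ q) *
        ∏ x : Fin q × (σ → Fin (D + 1)), Mv v (coeff (toF x.2) (y x.1)) := by
    calc ∏ l, wc v (y l).support (fun m => coeff m (y l))
        ≤ ∏ l, (cst v (((D : ℝ) + 1) ^ Fintype.card σ + 1) *
          ∏ b : σ → Fin (D + 1), Mv v (coeff (toF b) (y l))) :=
          Finset.prod_le_prod (fun q _ => zero_le_one.trans (one_le_wc v _ _)) fun q _ =>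
            wc_le_box v _ D (hy _)
      _ = _ := by
          rw [Finset.prod_mul_distrib, Finset.prod_const, Finset.card_univ, Fintype.card_fin,
            cst_pow, Fintype.prod_prod_type]
  rw [h1]
  refine mul_le_mul_of_nonneg_left h2 ?_
  rw [← h1]
  exact zero_le_one.trans (one_le_prod _ _ fun _ => one_le_wc v _ _)

end box

theorem t_CENV : CENV := by
  classical
  intro K _ _ σ _ J _ D s k₁ hs hD hDk hk1
  obtain ⟨q, hq⟩ : ∃ q, Fintype.card σ - (s + 1) = q := ⟨_, rfl⟩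
  rw [hq]
  set g₀ : ℕ := Fintype.card (Fin (s + 1) ⊕ Fin (q + 1)) with hg₀
  set L : ℕ := 2 * k₁ + D + 1 with hL
  have hL1 : 1 ≤ L := by omega
  set nZ : ℕ := Fintype.card ((Fin (s + 1) × J) ⊕ ((Fin (q + 1) × (σ → Fin (D + 1))) ⊕
    ((((σ → Bool) × (Fin (s + 1) ⊕ Fin (q + 1))) × (σ → Fin (k₁ + 1))) ⊕
      (J × (σ → Fin (D + 1)))))) with hnZ
  set bH : ℝ := (((k₁ : ℝ) + 1) ^ Fintype.card σ + 1) ^
    Fintype.card ((σ → Bool) × (Fin (s + 1) ⊕ Fin (q + 1))) with hbH
  set bJ : ℝ := ((Fintype.card J : ℝ) + 1) ^ (s + 1) with hbJ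
  set bD : ℝ := (((D : ℝ) + 1) ^ Fintype.card σ + 1) ^ (q + 1) with hbD
  have hbH1 : 1 ≤ bH := one_le_pow₀ (by
    have : (0 : ℝ) ≤ ((k₁ : ℝ) + 1) ^ Fintype.card σ := by positivity
    linarith)
  have hbJ1 : 1 ≤ bJ := one_le_pow₀ (by
    have : (0 : ℝ) ≤ (Fintype.card J : ℝ) := Nat.cast_nonneg _
    linarith)
  have hbD1 : 1 ≤ bD := one_le_pow₀ (by
    have : (0 : ℝ) ≤ ((D : ℝ) + 1) ^ Fintype.card σ := by positivity
    linarith)
  have hg1 : (1 : ℝ) ≤ (g₀ : ℝ) + 1 := by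
    have : (0 : ℝ) ≤ (g₀ : ℝ) := Nat.cast_nonneg _
    linarith
  set b0 : ℝ := ((g₀ : ℝ) + 1) * bH * (bJ * bD) with hb0
  have hb01 : 1 ≤ b0 := by
    have h1 : 1 ≤ ((g₀ : ℝ) + 1) * bH := one_le_mul_of_one_le_of_one_le hg1 hbH1
    have h2 : 1 ≤ bJ * bD := one_le_mul_of_one_le_of_one_le hbJ1 hbD1
    exact one_le_mul_of_one_le_of_one_le h1 h2
  have hlb0 : 0 ≤ Real.log b0 := Real.log_nonneg hb01
  set TW : ℝ := (totalWeight K : ℝ) with hTW
  have hTW0 : 0 ≤ TW := Nat.cast_nonneg _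
  have hnZ0 : (0 : ℝ) ≤ (nZ : ℝ) := Nat.cast_nonneg _
  refine ⟨2 ^ g₀ * L ^ Fintype.card σ, (nZ : ℝ) + (TW + 1) * Real.log b0,
    Nat.mul_pos (Nat.pow_pos two_pos) (Nat.pow_pos hL1), by positivity, ?_⟩
  intro f c y H A hA hf hy hHd hH hfh hch hyh hHh
  have hHk : ∀ a l i, degreeOf i (H a l) ≤ k₁ := fun a l i => by
    have := hHd a l i
    omega
  set z : (Fin (s + 1) × J) ⊕ ((Fin (q + 1) × (σ → Fin (D + 1))) ⊕
    ((((σ → Bool) × (Fin (s + 1) ⊕ Fin (q + 1))) × (σ → Fin (k₁ + 1))) ⊕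
      (J × (σ → Fin (D + 1))))) → K :=
    Sum.elim (fun x => c x.1 x.2) (Sum.elim (fun x => coeff (toF x.2) (y x.1))
      (Sum.elim (fun x => coeff (toF x.2) (H x.1.1 x.1.2))
        (fun x => coeff (toF x.2) (f x.1)))) with hz
  have hzh : ∀ a, logHeight₁ (z a) ≤ A := by
    intro a
    rcases a with x | x | x | x
    · exact hch _ _
    · exact hyh _ _
    · exact hHh _ _ _
    · exact hfh _ _
  obtain ⟨hG1, hG2, hG3⟩ := slow_G z A hzh b0 hb01
  obtain ⟨d, hd0, hdle, hdint⟩ := slow_d z A hzh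
  rw [← hnZ] at hG2 hG3 hdle
  rw [← hTW] at hG2
  have hPsplit : ∀ v : AbsoluteValue K ℝ, ∏ a, Mv v (z a) =
      (∏ x : Fin (s + 1) × J, Mv v (c x.1 x.2)) *
      ((∏ x : Fin (q + 1) × (σ → Fin (D + 1)), Mv v (coeff (toF x.2) (y x.1))) *
      ((∏ x : ((σ → Bool) × (Fin (s + 1) ⊕ Fin (q + 1))) × (σ → Fin (k₁ + 1)),
        Mv v (coeff (toF x.2) (H x.1.1 x.1.2))) *
      ∏ x : J × (σ → Fin (D + 1)), Mv v (coeff (toF x.2) (f x.1)))) := by
    intro v
    rw [Fintype.prod_sum_type, Fintype.prod_sum_type, Fintype.prod_sum_type]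
    rfl
  have hP1 : ∀ v : AbsoluteValue K ℝ, 1 ≤ ∏ a, Mv v (z a) := fun v =>
    Finset.one_le_prod fun a _ => one_le_Mv v _
  have hmain : ∀ v : AbsoluteValue K ℝ, cst v ((g₀ : ℝ) + 1) * BH v H * BU v c y ≤
      cst v b0 * ∏ a, Mv v (z a) := by
    intro v
    have h1 := BH_le v H k₁ hHk
    have h2 := BU_le v c y D hy
    have h3 := one_le_BH v H
    have h4 := one_le_BU v c y
    have hc1 : 1 ≤ cst v ((g₀ : ℝ) + 1) := one_le_cst v hg1
    rw [hPsplit v, hb0, cst_mul, cst_mul, cst_mul]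
    rw [← hbH] at h1
    rw [← hbJ, ← hbD] at h2
    have q1 : 1 ≤ ∏ x : Fin (s + 1) × J, Mv v (c x.1 x.2) :=
      Finset.one_le_prod fun a _ => one_le_Mv v _
    have q2 : 1 ≤ ∏ x : Fin (q + 1) × (σ → Fin (D + 1)), Mv v (coeff (toF x.2) (y x.1)) :=
      Finset.one_le_prod fun a _ => one_le_Mv v _
    have q3 : 1 ≤ ∏ x : ((σ → Bool) × (Fin (s + 1) ⊕ Fin (q + 1))) × (σ → Fin (k₁ + 1)),
        Mv v (coeff (toF x.2) (H x.1.1 x.1.2)) :=
      Finset.one_le_prod fun a _ => one_le_Mv v _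
    have q4 : 1 ≤ ∏ x : J × (σ → Fin (D + 1)), Mv v (coeff (toF x.2) (f x.1)) :=
      Finset.one_le_prod fun a _ => one_le_Mv v _
    have r1 : 1 ≤ cst v bH := one_le_cst v hbH1
    have r2 : 1 ≤ cst v bJ := one_le_cst v hbJ1
    have r3 : 1 ≤ cst v bD := one_le_cst v hbD1
    generalize (∏ x : Fin (s + 1) × J, Mv v (c x.1 x.2)) = P1 at *
    generalize (∏ x : Fin (q + 1) × (σ → Fin (D + 1)), Mv v (coeff (toF x.2) (y x.1))) = P2 at *
    generalize (∏ x : ((σ → Bool) × (Fin (s + 1) ⊕ Fin (q + 1))) × (σ → Fin (k₁ + 1)),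
        Mv v (coeff (toF x.2) (H x.1.1 x.1.2))) = P3 at *
    generalize (∏ x : J × (σ → Fin (D + 1)), Mv v (coeff (toF x.2) (f x.1))) = P4 at *
    calc cst v ((g₀ : ℝ) + 1) * BH v H * BU v c y
        ≤ cst v ((g₀ : ℝ) + 1) * (cst v bH * P3) * ((cst v bJ * P1) * (cst v bD * P2)) := by
          gcongr
      _ = cst v ((g₀ : ℝ) + 1) * cst v bH * (cst v bJ * cst v bD) * (P1 * (P2 * (P3 * 1))) := by
          ring
      _ ≤ cst v ((g₀ : ℝ) + 1) * cst v bH * (cst v bJ * cst v bD) * (P1 * (P2 * (P3 * P4))) := by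
          gcongr
  refine ⟨d, fun v => cst v b0 * ∏ a, Mv v (z a), hd0, ?_, hG1, ?_, ?_, ?_, fun N => ?_⟩
  · refine hdle.trans (Real.exp_le_exp.mpr ?_)
    have e1 : 0 ≤ (TW + 1) * Real.log b0 * (1 + A) := by positivity
    nlinarith
  · refine hG2.trans ?_
    have e1 : 0 ≤ TW * Real.log b0 * A := by positivity
    have e2 : 0 ≤ Real.log b0 * A := by positivity
    nlinarith
  · intro φ
    refine (hG3 φ).trans (Real.exp_le_exp.mpr ?_)
    have e1 : 0 ≤ TW * Real.log b0 * (1 + A) := by positivity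
    have e2 : 0 ≤ Real.log b0 * A := by positivity
    nlinarith
  · intro j m v
    have hc := one_le_cst v hb01
    rcases coeff_cases (f j) D (hf j) m with h | ⟨b, hb⟩
    · rw [h, map_zero]
      have := hP1 v
      positivity
    · have h1 := single_le' (fun a => Mv v (z a)) (fun a => one_le_Mv v _)
        (Sum.inr (Sum.inr (Sum.inr (j, b))))
      have h2 : v (coeff m (f j)) ≤ Mv v (z (Sum.inr (Sum.inr (Sum.inr (j, b))))) := by
        rw [← hb]
        exact le_max_right _ _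
      have h3 := hP1 v
      have h4 : 0 ≤ ∏ a, Mv v (z a) := zero_le_one.trans h3
      calc v (coeff m (f j)) ≤ 1 * ∏ a, Mv v (z a) := by rw [one_mul]; exact h2.trans h1
        _ ≤ cst v b0 * ∏ a, Mv v (z a) := mul_le_mul_of_nonneg_right hc h4
  have hd : ∀ a t b, IsIntegral ℤ ((d : K) * coeff b (H a t)) := by
    intro a t b
    rcases coeff_cases (H a t) k₁ (hHk a t) b with h | ⟨b', hb'⟩
    · rw [h, mul_zero]
      exact isIntegral_zero
    · rw [← hb']
      exact hdint (Sum.inr (Sum.inr (Sum.inl ((a, t), b'))))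
  set t : ℕ := (N - 2 * k₁) / D with ht
  set M : ℕ := N - t * D with hM
  have ht1 : t * D ≤ N - 2 * k₁ := Nat.div_mul_le_self _ _
  have ht2 : t ≤ t * D := Nat.le_mul_of_pos_right _ hD
  have htN : t ≤ N := by omega
  have hML : M + 1 ≤ L := by
    have h1 := Nat.div_add_mod (N - 2 * k₁) D
    have h2 := Nat.mod_lt (N - 2 * k₁) hD
    rw [← ht] at h1
    have h3 : D * t = t * D := mul_comm _ _
    omega
  refine ⟨Et (Fin (s + 1) ⊕ Fin (q + 1)) t × (σ → Fin (M + 1)), inferInstance, grd,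
    ee (uu f c y) t M, fun x g => rr k₁ H t M x (Finsupp.equivFunOnFinite.symm g),
    ⟨?_, ?_, ?_, ?_, ?_⟩, ?_⟩
  · refine (card_T t M).trans ?_
    rw [mul_pow]
    refine Nat.mul_le_mul ?_ ?_
    · have h1 : t + 1 ≤ 2 ^ (N + 1) := by
        have := (N + 1).lt_two_pow_self
        omega
      calc (t + 1) ^ g₀ ≤ (2 ^ (N + 1)) ^ g₀ := Nat.pow_le_pow_left h1 _
        _ = (2 ^ g₀) ^ (N + 1) := by rw [← pow_mul, ← pow_mul, mul_comm]
    · calc (M + 1) ^ Fintype.card σ ≤ L ^ Fintype.card σ := Nat.pow_le_pow_left hML _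
        _ ≤ (L ^ Fintype.card σ) ^ (N + 1) := Nat.le_self_pow (by omega) _
  · intro k
    rw [hq]
    refine (bad_count (σ := σ) (s + 1) q t M k).trans ?_
    calc k ^ (s + 1) * ((t + 1) ^ q * (M + 1) ^ Fintype.card σ)
        ≤ k ^ (s + 1) * ((N + 1) ^ q * L ^ Fintype.card σ) := by
          refine Nat.mul_le_mul le_rfl (Nat.mul_le_mul (Nat.pow_le_pow_left (by omega) _)
            (Nat.pow_le_pow_left hML _))
      _ = L ^ Fintype.card σ * k ^ (s + 1) * (N + 1) ^ q := by ring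
      _ ≤ 2 ^ g₀ * L ^ Fintype.card σ * k ^ (s + 1) * (N + 1) ^ q := by
          refine Nat.mul_le_mul (Nat.mul_le_mul ?_ le_rfl) le_rfl
          exact Nat.le_mul_of_pos_left _ (Nat.pow_pos two_pos)
  · intro v x g
    have h1 := rr_le v k₁ H t M x (Finsupp.equivFunOnFinite.symm g)
    have hc1 : 1 ≤ cst v ((g₀ : ℝ) + 1) := one_le_cst v hg1
    have h2 := one_le_BH v H
    have h3 := one_le_BU v c y
    have h4 : 1 ≤ cst v ((g₀ : ℝ) + 1) * BH v H := one_le_mul_of_one_le_of_one_le hc1 h2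
    refine h1.trans ?_
    calc (cst v ((g₀ : ℝ) + 1) * BH v H) ^ t
        ≤ (cst v ((g₀ : ℝ) + 1) * BH v H * BU v c y) ^ t := by
          refine pow_le_pow_left₀ (by linarith) ?_ _
          nlinarith
      _ ≤ (cst v ((g₀ : ℝ) + 1) * BH v H * BU v c y) ^ (N + 1) :=
          pow_le_pow_right₀ (one_le_mul_of_one_le_of_one_le h4 h3) (by omega)
      _ ≤ _ := pow_le_pow_left₀ (zero_le_one.trans (one_le_mul_of_one_le_of_one_le h4 h3))
          (hmain v) _
  · intro x g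
    have h1 := rr_integral d k₁ H hd t M x (Finsupp.equivFunOnFinite.symm g)
    have h2 : (d : K) ^ (N + 1) * rr k₁ H t M x (Finsupp.equivFunOnFinite.symm g) =
        (d : K) ^ (N + 1 - t) * ((d : K) ^ t * rr k₁ H t M x (Finsupp.equivFunOnFinite.symm g)) := by
      rw [← mul_assoc, ← pow_add]
      congr 2
      omega
    rw [h2]
    exact IsIntegral.mul (IsIntegral.pow (isIntegral_natCast _) _) h1
  · intro g hg
    have h7 : monomial (Finsupp.equivFunOnFinite.symm g) 1 =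
        ∑ x, C (rr k₁ H t M x (Finsupp.equivFunOnFinite.symm g)) * ee (uu f c y) t M x := by
      refine cen_identity k₁ H (uu f c y) hH (Finsupp.equivFunOnFinite.symm g) t M fun w i => ?_
      refine LW_degree D k₁ hD H hk1 hHd N _ (fun i => ?_) t ht1 w i
      rw [degreeOf_monomial_eq _ _ one_ne_zero]
      simpa using hg i
    rw [← h7, monomial_eq, C_1, one_mul, Finsupp.prod_fintype _ _ (fun i => pow_zero _)]
    exact Finset.prod_congr rfl fun i _ => by simp
  · intro v A' _ _ Nm hN X a ρ ha hρ hρ1 hX hfX x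
    have h1 := fr_ee hN D f c y hy X a ρ ha hρ hX hfX t M N (by omega) x
    refine hN.mono _ _ _ h1 ?_
    have hc1 : 1 ≤ cst v ((g₀ : ℝ) + 1) := one_le_cst v hg1
    have h2 := one_le_BH v H
    have h3 := one_le_BU v c y
    have h4 : 1 ≤ cst v ((g₀ : ℝ) + 1) * BH v H := one_le_mul_of_one_le_of_one_le hc1 h2
    have h5 : BU v c y ^ t ≤ (cst v b0 * ∏ a, Mv v (z a)) ^ (N + 1) := by
      calc BU v c y ^ t ≤ (cst v ((g₀ : ℝ) + 1) * BH v H * BU v c y) ^ t := by
            refine pow_le_pow_left₀ (by linarith) ?_ _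
            nlinarith
        _ ≤ (cst v ((g₀ : ℝ) + 1) * BH v H * BU v c y) ^ (N + 1) :=
            pow_le_pow_right₀ (one_le_mul_of_one_le_of_one_le h4 h3) (by omega)
        _ ≤ _ := pow_le_pow_left₀ (zero_le_one.trans (one_le_mul_of_one_le_of_one_le h4 h3))
            (hmain v) _
    have h6 : 0 ≤ ∏ i, a i ^ N := Finset.prod_nonneg fun i _ =>
      pow_nonneg (zero_le_one.trans (ha i)) _
    have h7 : 0 ≤ ρ ^ grd x := pow_nonneg hρ.le _
    exact mul_le_mul_of_nonneg_right (mul_le_mul_of_nonneg_right h5 h6) h7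

end

end Pool.Agent.Helper69.PM
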